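import Pool.Agent.H610R2.CN.Fam

/-!
MP_05dcdc_nt (converse of Tunnell's theorem, odd squarefree n): in each class 1, 3, 5, 7 mod 8 every
interval `[X, X + C X^(5/6)]` contains a squarefree congruent number.

Proof: `(r - 4) r (r + 4)` with `r` odd is congruent; an elementary sieve finds `r` in the class
`j` mod 8 in every interval of length `C sqrt R` with no square dividing `r - 4`, `r`, `r + 4`.
(helper610)
-/

namespace Pool.Agent.Results.MP_05dcdc_nt.ShortIntervals

/-- There is a constant `C` such that for every real `X ≥ 1` and every odd residue class `j` mod `8`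
some squarefree congruent number `n ≡ j` mod `8` lies in `[X, X + C X^(5/6)]`. -/
theorem result : ∃ C : ℝ, 0 < C ∧ ∀ X : ℝ, 1 ≤ X → ∀ j : ℕ, Odd j → j < 8 →
    ∃ n : ℕ, X ≤ n ∧ (n : ℝ) ≤ X + C * X ^ (5 / 6 : ℝ) ∧ Squarefree n ∧ n % 8 = j ∧
      ∃ a b c : ℚ, 0 < a ∧ 0 < b ∧ 0 < c ∧ a ^ 2 + b ^ 2 = c ^ 2 ∧ (n : ℚ) = a * b / 2 :=
  H610CN.odd_classes

end Pool.Agent.Results.MP_05dcdc_nt.ShortIntervals
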